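import Mathlib
import Pool.Agent.Results.MP_a762d4_al.Semilattices

set_option autoImplicit false
set_option maxHeartbeats 400000

namespace Pool.Agent.Results.MP_ea093d_al.InfiniteLattice

/-- The class of semigroups satisfying every identical inclusion `(u, V)` of `A`. -/
def Models (A : Set (FreeSemigroup ℕ × Set (FreeSemigroup ℕ))) : Set Semigrp.{0} :=
  {S | ∀ I ∈ A, ∀ φ : FreeSemigroup ℕ →ₙ* S, ∃ v ∈ I.2, φ I.1 = φ v}

/-- The inclusive variety generated by `S`. -/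
def Generated (S : Semigrp.{0}) : Set Semigrp.{0} := Models {I | S ∈ Models {I}}

open Pool.Agent.Results.MP_a762d4_al.Semilattices

def VK (k : ℕ) : Set (FreeSemigroup ℕ) :=
  {v | v = X 1 * X 2 * X 3 ∨ v = X 0 * X 2 * X 3 ∨ v = X 0 * X 1 * X 3 ∨ v = X 0 * X 1 * X 2 ∨
    (∃ m, v = X 1 * X 2 * X 3 * X (6 * m + 5)) ∨ (∃ m, v = X 0 * X 2 * X 3 * X (6 * m + 4)) ∨
    (∃ m, v = X 0 * X 1 * X 3 * X (6 * m + 4) * X (6 * m + 5)) ∨
    (∃ m, v = X 0 * X 1 * X 2 * X (6 * m + 4) * X (6 * m + 5)) ∨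
    (∃ m l, m < k ∧ l < k ∧ m ≠ l ∧ v = X 2 * X 3 * X (6 * m + 4) * X (6 * l + 5))}

lemma satK (n k : ℕ) (hk : (6 * (n + 1)) * (6 * (n + 1)) < k) (φ : FreeSemigroup ℕ →ₙ* SS n) :
    ∃ v ∈ VK k, φ (X 0 * X 1 * X 2 * X 3) = φ v := by
  by_contra hc
  push Not at hc
  have hG := fun i => (φ (X i)).2
  choose G hne hG using hG
  have hm : ∀ i w, w ∈ (φ (X i)).1 ↔ ∀ g ∈ G i, inc w (g.1, g.2) := fun i w => by rw [hG]; rfl
  have hd : ∀ v ∈ VK k, (φ (X 0 * X 1 * X 2 * X 3)).1 ⊆ (φ v).1 →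
      ∃ w ∈ (φ v).1, w ∉ (φ (X 0 * X 1 * X 2 * X 3)).1 := by
    intro v hv h
    by_contra h1
    push Not at h1
    exact hc v hv (Subtype.ext (Set.Subset.antisymm h h1))
  simp only [map_mul, mul_val] at hd
  obtain ⟨w1, h1, h1'⟩ := hd (X 1 * X 2 * X 3) (Or.inl rfl)
    (by simp only [map_mul, mul_val]; grind)
  obtain ⟨w2, h2, h2'⟩ := hd (X 0 * X 2 * X 3) (Or.inr (Or.inl rfl))
    (by simp only [map_mul, mul_val]; grind)
  obtain ⟨w3, h3, h3'⟩ := hd (X 0 * X 1 * X 3) (Or.inr (Or.inr (Or.inl rfl)))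
    (by simp only [map_mul, mul_val]; grind)
  obtain ⟨w4, h4, h4'⟩ := hd (X 0 * X 1 * X 2) (Or.inr (Or.inr (Or.inr (Or.inl rfl))))
    (by simp only [map_mul, mul_val]; grind)
  simp only [map_mul, mul_val, Set.mem_inter_iff] at h1 h2 h3 h4 h1' h2' h3' h4'
  have e1 : w1 ∉ (φ (X 0)).1 := by tauto
  have e2 : w2 ∉ (φ (X 1)).1 := by tauto
  have e3 : w3 ∉ (φ (X 2)).1 := by tauto
  have e4 : w4 ∉ (φ (X 3)).1 := by tauto
  simp only [hm] at h1 h2 h3 h4 e1 e2 e3 e4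
  push Not at e1 e2 e3 e4
  obtain ⟨a, ha, a1⟩ := e1
  obtain ⟨b, hb, b1⟩ := e2
  obtain ⟨c, hc, c1⟩ := e3
  obtain ⟨d, hd', d1⟩ := e4
  have h0 := clA a1 (h1.1.1 b hb) (h1.1.2 c hc) (h1.2 d hd') (h2.1.1 a ha) b1 (h2.1.2 c hc)
    (h2.2 d hd') (h3.1.1 a ha) (h3.1.2 b hb) c1 (h3.2 d hd') (h4.1.1 a ha) (h4.1.2 b hb)
    (h4.2 c hc) d1
  have he : ∀ v ∈ VK k, ∃ w, w ∈ (φ v).1 := by
    intro v hv
    obtain ⟨w, hw, -⟩ := hd v hv (by
      rintro w ⟨⟨⟨f1, f2⟩, f3⟩, f4⟩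
      exact (h0 w ((hm _ _).mp f1 a ha) ((hm _ _).mp f2 b hb) ((hm _ _).mp f3 c hc)
        ((hm _ _).mp f4 d hd')).elim)
    exact ⟨w, hw⟩
  choose y hy using hne
  obtain ⟨⟨m, hm'⟩, ⟨l, hl'⟩, hml, h5⟩ := Fintype.exists_ne_map_eq_of_card_lt
    (fun m : Fin k => (y (6 * m + 4), y (6 * m + 5))) (by simpa using hk)
  replace hml : m ≠ l := by simpa using hml
  have h6 : y (6 * m + 5) = y (6 * l + 5) := congrArg Prod.snd h5
  obtain ⟨t1, g1⟩ := he (X 1 * X 2 * X 3 * X (6 * m + 5))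
    (Or.inr (Or.inr (Or.inr (Or.inr (Or.inl ⟨m, rfl⟩)))))
  obtain ⟨t2, g2⟩ := he (X 0 * X 2 * X 3 * X (6 * m + 4))
    (Or.inr (Or.inr (Or.inr (Or.inr (Or.inr (Or.inl ⟨m, rfl⟩))))))
  obtain ⟨t3, g3⟩ := he (X 0 * X 1 * X 3 * X (6 * m + 4) * X (6 * m + 5))
    (Or.inr (Or.inr (Or.inr (Or.inr (Or.inr (Or.inr (Or.inl ⟨m, rfl⟩)))))))
  obtain ⟨t4, g4⟩ := he (X 0 * X 1 * X 2 * X (6 * m + 4) * X (6 * m + 5))
    (Or.inr (Or.inr (Or.inr (Or.inr (Or.inr (Or.inr (Or.inr (Or.inl ⟨m, rfl⟩))))))))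
  obtain ⟨t0, g0⟩ := he (X 2 * X 3 * X (6 * m + 4) * X (6 * l + 5))
    (Or.inr (Or.inr (Or.inr (Or.inr (Or.inr (Or.inr (Or.inr (Or.inr (⟨m, l, hm', hl', hml, rfl⟩)))))))))
  simp only [map_mul, mul_val, Set.mem_inter_iff, hm] at g1 g2 g3 g4 g0
  exact clB h0 (g1.1.1.1 b hb) (g1.1.1.2 c hc) (g1.1.2 d hd') (g1.2 _ (hy _))
    (g2.1.1.1 a ha) (g2.1.1.2 c hc) (g2.1.2 d hd') (g2.2 _ (hy _))
    (g3.1.1.1.1 a ha) (g3.1.1.1.2 b hb) (g3.1.1.2 d hd') (g3.1.2 _ (hy _)) (g3.2 _ (hy _))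
    (g4.1.1.1.1 a ha) (g4.1.1.1.2 b hb) (g4.1.1.2 c hc) (g4.1.2 _ (hy _)) (g4.2 _ (hy _))
    (g0.1.1.1 c hc) (g0.1.1.2 d hd') (g0.1.2 _ (hy _)) (h6 ▸ g0.2 _ (hy _))

lemma unsatK (n : ℕ) (v : FreeSemigroup ℕ) (hv : v ∈ VK n) :
    FreeSemigroup.lift (gen n) (X 0 * X 1 * X 2 * X 3) ≠ FreeSemigroup.lift (gen n) v := by
  have h0 : ∀ w, w ∉ (FreeSemigroup.lift (gen n) (X 0 * X 1 * X 2 * X 3)).1 := by
    intro w
    cases w <;> simp [X, mul_val, gen, inc]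
  suffices h : ∃ w, w ∈ (FreeSemigroup.lift (gen n) v).1 by
    obtain ⟨w, hw⟩ := h
    exact fun h1 => h0 w (h1 ▸ hw)
  have e4 : ∀ m, (6 * m + 4) % 6 = 4 := by omega
  have e5 : ∀ m, (6 * m + 5) % 6 = 5 := by omega
  have f4 : ∀ m, (6 * m + 4) / 6 = m := by omega
  have f5 : ∀ m, (6 * m + 5) / 6 = m := by omega
  rcases hv with rfl | rfl | rfl | rfl | ⟨m, rfl⟩ | ⟨m, rfl⟩ | ⟨m, rfl⟩ | ⟨m, rfl⟩ |
    ⟨m, l, h1, h2, h, rfl⟩
  · exact ⟨.de, by simp [X, mul_val, gen, inc]⟩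
  · exact ⟨.ga, by simp [X, mul_val, gen, inc]⟩
  · exact ⟨.al 0, by simp [X, mul_val, gen, inc]⟩
  · exact ⟨.be 0, by simp [X, mul_val, gen, inc]⟩
  · exact ⟨.de, by simp [X, mul_val, gen, inc, e5]⟩
  · exact ⟨.ga, by simp [X, mul_val, gen, inc, e4]⟩
  · exact ⟨.al (min m n), by simp [X, mul_val, gen, inc, e4, e5, f4, f5]⟩
  · exact ⟨.be (min m n), by simp [X, mul_val, gen, inc, e4, e5, f4, f5]⟩
  · exact ⟨.ep m l, by simp [X, mul_val, gen, inc, e4, e5, f4, f5, h, h1.le, h2.le]⟩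

def lt (w : FreeSemigroup ℕ) : Finset ℕ := (w.head :: w.tail).toFinset

lemma lt_mul (v w : FreeSemigroup ℕ) : lt (v * w) = lt v ∪ lt w := by
  ext; simp [lt]; tauto

lemma val_lt {n : ℕ} (φ : FreeSemigroup ℕ →ₙ* SS n) (w : FreeSemigroup ℕ) (p : Pt) :
    p ∈ (φ w).1 ↔ ∀ j ∈ lt w, p ∈ (φ (X j)).1 := by
  induction w with
  | ih1 i => simp [lt, X]
  | ih2 i w h1 h2 =>
    rw [map_mul, mul_val, Set.mem_inter_iff, h1, h2, lt_mul]
    simp only [Finset.mem_union, or_imp, forall_and]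

lemma val_lt' {κ : Type} (f : ℕ → κ → ZMod 2) (w : FreeSemigroup ℕ) (c : κ) :
    FreeSemigroup.lift f w c = 0 ↔ ∃ j ∈ lt w, f j c = 0 := by
  induction w with
  | ih1 i => simp [lt]
  | ih2 i w h1 h2 =>
    rw [map_mul, Pi.mul_apply, mul_eq_zero, h1, h2, lt_mul]
    simp only [Finset.mem_union, or_and_right, exists_or]

lemma breadth {n : ℕ} (z : ℕ → SS n) (F : Finset ℕ) :
    ∃ F' ⊆ F, F'.card ≤ 4 ∧ ∀ p, (∀ j ∈ F', p ∈ (z j).1) → ∀ j ∈ F, p ∈ (z j).1 := by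
  induction F using Finset.strongInduction with
  | H F ih =>
    by_cases h : ∃ j ∈ F, ∀ p, (∀ i ∈ F.erase j, p ∈ (z i).1) → p ∈ (z j).1
    · obtain ⟨j, hj, h⟩ := h
      obtain ⟨F', h1, h2, h3⟩ := ih _ (Finset.erase_ssubset hj)
      refine ⟨F', h1.trans (Finset.erase_subset _ _), h2, fun p hp i hi => ?_⟩
      by_cases h4 : i = j
      · exact h4 ▸ h p (h3 p hp)
      · exact h3 p hp i (Finset.mem_erase.mpr ⟨h4, hi⟩)
    · refine ⟨F, subset_rfl, ?_, fun p hp => hp⟩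
      by_contra hc
      push Not at h
      have : Nonempty Pt := ⟨.ga⟩
      choose! w hw1 hw2 using h
      choose G hne hG using fun i => (z i).2
      have hm : ∀ i p, p ∈ (z i).1 ↔ ∀ g ∈ G i, inc p (g.1, g.2) := fun i w => by rw [hG]; rfl
      simp only [hm, Finset.mem_erase] at hw1 hw2
      push Not at hw2
      choose! g hg1 hg2 using hw2
      obtain ⟨e, he⟩ : ∃ e : Fin 5 ↪ ℕ, ∀ c, e c ∈ F := by
        obtain ⟨e⟩ := Function.Embedding.nonempty_of_card_le (α := Fin 5) (β := F) (by simp; omega)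
        exact ⟨e.trans (.subtype _), fun c => (e c).2⟩
      have k1 : ∀ c d : Fin 5, c ≠ d → inc (w (e c)) ((g (e d)).1, (g (e d)).2) := fun c d h =>
        hw1 _ (he c) _ ⟨fun h' => h (e.injective h').symm, he d⟩ _ (hg1 _ (he d))
      have k2 : ∀ c : Fin 5, ¬ inc (w (e c)) ((g (e c)).1, (g (e c)).2) := fun c => hg2 _ (he c)
      exact clA (k2 0) (k1 0 1 (by decide)) (k1 0 2 (by decide)) (k1 0 3 (by decide))
        (k1 1 0 (by decide)) (k2 1) (k1 1 2 (by decide)) (k1 1 3 (by decide))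
        (k1 2 0 (by decide)) (k1 2 1 (by decide)) (k2 2) (k1 2 3 (by decide))
        (k1 3 0 (by decide)) (k1 3 1 (by decide)) (k1 3 2 (by decide)) (k2 3) _
        (k1 4 0 (by decide)) (k1 4 1 (by decide)) (k1 4 2 (by decide)) (k1 4 3 (by decide))

lemma mem_gen (n : ℕ) : Semigrp.of (SS n) ∈ Generated (Semigrp.of (Option (Fin 4) → ZMod 2)) := by
  classical
  rintro ⟨u, V⟩ hI φ
  obtain ⟨F, h1, h2, h3⟩ := breadth (n := n) (fun j => φ (X j)) (lt u)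
  obtain ⟨e⟩ := Function.Embedding.nonempty_of_card_le (α := F) (β := Fin 4) (by simpa using h2)
  obtain ⟨f, hf⟩ : ∃ f : ℕ → Option (Fin 4) → ZMod 2, f = fun j c => c.elim
    (if (φ u).1 ⊆ (φ (X j)).1 then 1 else 0)
    (fun c => if ∃ h : j ∈ F, e ⟨j, h⟩ = c then 0 else 1) := ⟨_, rfl⟩
  obtain ⟨v, hv, h4⟩ := hI _ rfl (FreeSemigroup.lift f)
  have h4 : FreeSemigroup.lift f u = FreeSemigroup.lift f v := h4
  refine ⟨v, hv, Subtype.ext (Set.ext fun p => ⟨fun hp => ?_, fun hp => ?_⟩)⟩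
  · refine (val_lt (n := n) φ v p).mpr fun j hj => ?_
    by_contra h5
    have h6 : ¬ (φ u).1 ⊆ (φ (X j)).1 := fun h => h5 (h hp)
    obtain ⟨i, hi, h7⟩ := (val_lt' f u none).mp (h4 ▸ (val_lt' f v none).mpr 
      ⟨j, hj, by simp only [hf, Option.elim, if_neg h6]⟩)
    have h8 : (φ u).1 ⊆ (φ (X i)).1 := fun q hq => (val_lt (n := n) φ u q).mp hq i hi
    simp only [hf, Option.elim, if_pos h8, one_ne_zero] at h7
  · refine (val_lt (n := n) φ u p).mpr (h3 p fun j hj => ?_)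
    obtain ⟨i, hi, h7⟩ := (val_lt' f v (some (e ⟨j, hj⟩))).mp (h4 ▸ (val_lt' f u _).mpr
      ⟨j, h1 hj, by simp [hf, hj]⟩)
    have h8 : i = j := by
      by_contra h9
      simp [hf, h9] at h7
    exact (val_lt (n := n) φ v p).mp hp j (h8 ▸ hi)

theorem result : ∃ S : Semigrp.{0}, Finite S ∧
    {K : Set Semigrp.{0} | (∃ A, K = Models A) ∧ K ⊆ Generated S}.Infinite := by
  refine ⟨Semigrp.of (Option (Fin 4) → ZMod 2), inferInstanceAs (Finite (Option (Fin 4) → ZMod 2)),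
    fun h => ?_⟩
  obtain ⟨K, hK⟩ : ∃ K : ℕ → Set Semigrp.{0}, K = fun k =>
      Models ({I | Semigrp.of (Option (Fin 4) → ZMod 2) ∈ Models {I}} ∪
        {(X 0 * X 1 * X 2 * X 3, VK k)}) := ⟨_, rfl⟩
  obtain ⟨s, hs⟩ : ∃ s : ℕ → ℕ, s = fun i => (fun n => (6 * (n + 1)) * (6 * (n + 1)) + 1)^[i] 0 :=
    ⟨_, rfl⟩
  have h1 : ∀ i, s (i + 1) = (6 * (s i + 1)) * (6 * (s i + 1)) + 1 := fun i => by
    simp only [hs, Function.iterate_succ_apply']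
  have h2 : StrictMono s := strictMono_nat_of_lt_succ fun i => by rw [h1]; nlinarith
  obtain ⟨i, j, hij, h3⟩ := h.exists_lt_map_eq_of_forall_mem (f := fun i => K (s i)) (fun i => by
    subst hK
    exact ⟨⟨_, rfl⟩, fun S hS I hI => hS I (Or.inl hI)⟩)
  have h4 : Semigrp.of (SS (s i)) ∈ K (s j) := by
    subst hK
    rintro I (hI | rfl)
    · exact mem_gen _ I hI
    · refine satK _ _ ?_
      have := h2.monotone (Nat.succ_le_of_lt hij)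
      rw [h1] at this
      omega
  have h3 : K (s i) = K (s j) := h3
  rw [← h3, hK] at h4
  obtain ⟨v, hv, h5⟩ := h4 _ (Or.inr rfl) (FreeSemigroup.lift (gen (s i)))
  exact unsatK _ v hv h5

end Pool.Agent.Results.MP_ea093d_al.InfiniteLattice
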